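import Pool.Agent.H27.TM.TargetsL
import Pool.Agent.H31.SW.Tools

/-!
# The twelfth moment: the amplitudes (row LA)
-/

set_option autoImplicit false

open MeasureTheory Set Filter Complex
open scoped ENNReal Topology

namespace Pool.Agent.H42.TMB.LA

open Pool.Agent.H29.DW (dg Rl)
open Pool.Agent.H31.SW (EE HD DB DS ind Pf)
open Pool.Agent.H27.TM

/-! ### Cut-offs -/

private noncomputable def b1 : ContDiffBump (0 : ℂ) := ⟨2, 3, by norm_num, by norm_num⟩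

private noncomputable def b2 : ContDiffBump (0 : ℂ) := ⟨1 / 2, 1, by norm_num, by norm_num⟩

private noncomputable def b3 : ContDiffBump (0 : ℂ) := ⟨1 / 5, 1 / 4, by norm_num, by norm_num⟩

/-- `1` for `1 ≤ |s| ≤ 2`, `0` for `|s| ≤ 1 / 2` and for `|s| ≥ 3` -/
private noncomputable def psi (s : ℂ) : ℝ := b1 s * (1 - b2 s)

/-- `1` for `|t| ≥ 1 / 4`, `0` for `|t| ≤ 1 / 5` -/
private noncomputable def chi (t : ℂ) : ℝ := 1 - b3 t

private theorem psi_one {s : ℂ} (h1 : 1 ≤ ‖s‖) (h2 : ‖s‖ ≤ 2) : psi s = 1 := by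
  unfold psi
  have e1 : b1 s = 1 := b1.one_of_mem_closedBall (by simpa [b1] using h2)
  have e2 : b2 s = 0 := b2.zero_of_le_dist (by simpa [b2] using h1)
  rw [e1, e2]
  norm_num

private theorem psi_small {s : ℂ} (h1 : ‖s‖ ≤ 1 / 2) : psi s = 0 := by
  unfold psi
  have e2 : b2 s = 1 := b2.one_of_mem_closedBall (by simpa [b2] using h1)
  rw [e2]
  norm_num

private theorem psi_large {s : ℂ} (h1 : 3 ≤ ‖s‖) : psi s = 0 := by
  unfold psi
  have e1 : b1 s = 0 := b1.zero_of_le_dist (by simpa [b1] using h1)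
  rw [e1]
  norm_num

private theorem chi_one {t : ℂ} (h1 : 1 / 4 ≤ ‖t‖) : chi t = 1 := by
  unfold chi
  have e1 : b3 t = 0 := b3.zero_of_le_dist (by simpa [b3] using h1)
  rw [e1]
  norm_num

private theorem chi_small {t : ℂ} (h1 : ‖t‖ ≤ 1 / 5) : chi t = 0 := by
  unfold chi
  have e2 : b3 t = 1 := b3.one_of_mem_closedBall (by simpa [b3] using h1)
  rw [e2]
  norm_num

private theorem psi_smooth (n : ℕ) : ContDiff ℝ n psi := by
  unfold psi
  exact (b1.contDiff).mul (contDiff_const.sub b2.contDiff)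

private theorem chi_smooth (n : ℕ) : ContDiff ℝ n chi := by
  unfold chi
  exact contDiff_const.sub b3.contDiff

/-- the weight of the parameter -/
private noncomputable def Pp (r : Bool) (s : ℂ) : ℂ := ((psi s * ‖s‖ ^ dg r : ℝ) : ℂ)

private theorem Pp_smooth (r : Bool) (n : ℕ) : ContDiff ℝ n (Pp r) := by
  rw [contDiff_iff_contDiffAt]
  intro s
  by_cases hs : s = 0
  · have hev : Pp r =ᶠ[𝓝 s] fun _ => 0 := by
      have h0 : ‖s‖ < 1 / 2 := by
        rw [hs, norm_zero]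
        norm_num
      have : ∀ᶠ z in 𝓝 s, ‖z‖ < 1 / 2 :=
        continuous_norm.continuousAt.eventually (gt_mem_nhds h0)
      filter_upwards [this] with z hz
      unfold Pp
      rw [psi_small hz.le, zero_mul, ofReal_zero]
    exact contDiffAt_const.congr_of_eventuallyEq hev
  · unfold Pp
    have h1 : ContDiffAt ℝ n (fun s : ℂ => psi s * ‖s‖ ^ dg r) s :=
      (psi_smooth n).contDiffAt.mul ((contDiffAt_norm ℝ hs).pow _)
    exact (ofRealCLM.contDiff.contDiffAt (x := psi s * ‖s‖ ^ dg r)).comp s h1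

/-! ### The function -/

/-- the parameters -/
private abbrev Pr : Type := ℝ × ℝ × ℂ

/-- the factor with the logarithm -/
private noncomputable def hF (Λ Ψ : ℂ → ℂ) (z : Pr × ℂ) : ℂ :=
  (chi z.2 : ℂ) * Ψ ((z.1.1 : ℂ) * (2 / z.2) * Λ ((z.1.2.1 : ℂ) / z.2))

/-- the amplitude -/
private noncomputable def gF (r : Bool) (q Λ Ψ : ℂ → ℂ) (z : Pr × ℂ) : ℂ :=
  Pp r z.1.2.2 * q (z.1.2.2 * z.2 + z.1.2.1 * z.1.2.2 - 1) *
    (starRingEnd ℂ) (q (z.1.2.2 * z.2 - z.1.2.1 * z.1.2.2 - 1)) * hF Λ Ψ z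

/-- the domain of the parameters -/
private def Oo : Set Pr := {e | |e.2.1| < 1 / 5000}

private theorem Oo_open : IsOpen Oo := by
  unfold Oo
  exact isOpen_lt (continuous_abs.comp (continuous_fst.comp continuous_snd)) continuous_const

private theorem hF_smooth (Λ Ψ : ℂ → ℂ) (hΛ : ∀ n : ℕ, ContDiffOn ℝ n Λ (Metric.ball 0 (1 / 10)))
    (hΨ : ∀ n : ℕ, ContDiff ℝ n Ψ) (n : ℕ) : ContDiffOn ℝ n (hF Λ Ψ) (Oo ×ˢ univ) := by
  intro z hz
  apply ContDiffAt.contDiffWithinAt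
  have ha : |z.1.2.1| < 1 / 5000 := hz.1
  by_cases ht : ‖z.2‖ < 1 / 5
  · have hev : hF Λ Ψ =ᶠ[𝓝 z] fun _ => 0 := by
      have : ∀ᶠ y in 𝓝 z, ‖y.2‖ < 1 / 5 :=
        (continuous_norm.comp continuous_snd).continuousAt.eventually (gt_mem_nhds ht)
      filter_upwards [this] with y hy
      unfold hF
      rw [chi_small hy.le, ofReal_zero, zero_mul]
    exact contDiffAt_const.congr_of_eventuallyEq hev
  · have ht' : 1 / 5 ≤ ‖z.2‖ := not_lt.1 ht
    have ht0 : z.2 ≠ 0 := by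
      intro h
      rw [h, norm_zero] at ht'
      linarith
    have hb : ((z.1.2.1 : ℂ) / z.2) ∈ Metric.ball (0 : ℂ) (1 / 10) := by
      rw [mem_ball_zero_iff, norm_div, Complex.norm_real, Real.norm_eq_abs,
        div_lt_iff₀ (by linarith)]
      linarith
    have s2 : ContDiffAt ℝ n (fun y : Pr × ℂ => y.2) z := contDiffAt_snd
    have sb : ContDiffAt ℝ n (fun y : Pr × ℂ => (y.1.1 : ℂ)) z :=
      (ofRealCLM.contDiff.comp (contDiff_fst.comp contDiff_fst)).contDiffAt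
    have sa : ContDiffAt ℝ n (fun y : Pr × ℂ => (y.1.2.1 : ℂ)) z :=
      (ofRealCLM.contDiff.comp (contDiff_fst.comp (contDiff_snd.comp contDiff_fst))).contDiffAt
    have si : ContDiffAt ℝ n (fun y : Pr × ℂ => (y.2)⁻¹) z := s2.inv ht0
    have sq : ContDiffAt ℝ n (fun y : Pr × ℂ => (y.1.2.1 : ℂ) / y.2) z := by
      simp only [div_eq_mul_inv]
      exact sa.mul si
    have sw : ContDiffAt ℝ n (fun y : Pr × ℂ => 2 / y.2) z := by
      simp only [div_eq_mul_inv]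
      exact contDiffAt_const.mul si
    have sΛ : ContDiffAt ℝ n (fun y : Pr × ℂ => Λ ((y.1.2.1 : ℂ) / y.2)) z :=
      ((hΛ n).contDiffAt (Metric.isOpen_ball.mem_nhds hb)).comp z sq
    have sΨ : ContDiffAt ℝ n (fun y : Pr × ℂ => Ψ ((y.1.1 : ℂ) * (2 / y.2) *
        Λ ((y.1.2.1 : ℂ) / y.2))) z :=
      ((hΨ n).contDiffAt).comp z ((sb.mul sw).mul sΛ)
    have sχ : ContDiffAt ℝ n (fun y : Pr × ℂ => (chi y.2 : ℂ)) z :=
      (ofRealCLM.contDiff.comp ((chi_smooth n).comp contDiff_snd)).contDiffAt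
    exact sχ.mul sΨ

private theorem gF_smooth (r : Bool) (q Λ Ψ : ℂ → ℂ)
    (hΛ : ∀ n : ℕ, ContDiffOn ℝ n Λ (Metric.ball 0 (1 / 10))) (hq : ∀ n : ℕ, ContDiff ℝ n q)
    (hΨ : ∀ n : ℕ, ContDiff ℝ n Ψ) (n : ℕ) : ContDiffOn ℝ n (gF r q Λ Ψ) (Oo ×ˢ univ) := by
  have ss : ContDiff ℝ n (fun y : Pr × ℂ => y.1.2.2) :=
    contDiff_snd.comp (contDiff_snd.comp contDiff_fst)
  have s2 : ContDiff ℝ n (fun y : Pr × ℂ => y.2) := contDiff_snd
  have sa : ContDiff ℝ n (fun y : Pr × ℂ => (y.1.2.1 : ℂ)) :=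
    ofRealCLM.contDiff.comp (contDiff_fst.comp (contDiff_snd.comp contDiff_fst))
  have sP : ContDiff ℝ n (fun y : Pr × ℂ => Pp r y.1.2.2) := (Pp_smooth r n).comp ss
  have q1 : ContDiff ℝ n (fun y : Pr × ℂ => q (y.1.2.2 * y.2 + y.1.2.1 * y.1.2.2 - 1)) :=
    (hq n).comp (((ss.mul s2).add (sa.mul ss)).sub contDiff_const)
  have q2 : ContDiff ℝ n (fun y : Pr × ℂ => q (y.1.2.2 * y.2 - y.1.2.1 * y.1.2.2 - 1)) :=
    (hq n).comp (((ss.mul s2).sub (sa.mul ss)).sub contDiff_const)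
  have q3 : ContDiff ℝ n (fun y : Pr × ℂ =>
      (starRingEnd ℂ) (q (y.1.2.2 * y.2 - y.1.2.1 * y.1.2.2 - 1))) :=
    conjCLE.contDiff.comp q2
  exact ((sP.mul q1).mul q3).contDiffOn.mul (hF_smooth Λ Ψ hΛ hΨ n)

/-- the region where the amplitude vanishes -/
private def Zr (z : Pr × ℂ) : Prop :=
  1 / 2500 < ‖z.2 - (z.1.2.2)⁻¹‖ ∨ ‖z.1.2.2‖ < 1 / 2 ∨ 3 < ‖z.1.2.2‖

private theorem gF_zero (r : Bool) (q Λ Ψ : ℂ → ℂ) (hq : ∀ x, 1 / 10000 < ‖x‖ → q x = 0)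
    {z : Pr × ℂ} (hz : |z.1.2.1| < 1 / 5000) (h : Zr z) : gF r q Λ Ψ z = 0 := by
  unfold gF
  by_cases h1 : ‖z.1.2.2‖ < 1 / 2
  · simp [Pp, psi_small h1.le]
  by_cases h2 : 3 < ‖z.1.2.2‖
  · simp [Pp, psi_large h2.le]
  have h3 : 1 / 2500 < ‖z.2 - (z.1.2.2)⁻¹‖ := by
    rcases h with h | h | h
    · exact h
    · exact absurd h h1
    · exact absurd h h2
  have h1' := not_lt.1 h1
  have hs0 : z.1.2.2 ≠ 0 := by
    intro h
    rw [h, norm_zero] at h1'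
    linarith
  have hq0 : q (z.1.2.2 * z.2 + z.1.2.1 * z.1.2.2 - 1) = 0 := by
    apply hq
    by_contra h4
    have h4' := not_lt.1 h4
    have e : z.2 - (z.1.2.2)⁻¹ =
        (z.1.2.2)⁻¹ * (z.1.2.2 * z.2 + z.1.2.1 * z.1.2.2 - 1) - z.1.2.1 := by
      field_simp
      ring
    have h5 : ‖z.2 - (z.1.2.2)⁻¹‖ ≤ ‖z.1.2.2‖⁻¹ * ‖z.1.2.2 * z.2 + z.1.2.1 * z.1.2.2 - 1‖ +
        |z.1.2.1| := by
      rw [e]
      refine (norm_sub_le _ _).trans ?_
      rw [norm_mul, norm_inv, Complex.norm_real, Real.norm_eq_abs]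
    have h6 : ‖z.1.2.2‖⁻¹ ≤ 2 := by
      rw [inv_le_comm₀ (by linarith) (by norm_num)]
      linarith
    have h7 : ‖z.1.2.2‖⁻¹ * ‖z.1.2.2 * z.2 + z.1.2.1 * z.1.2.2 - 1‖ ≤ 2 * (1 / 10000) :=
      mul_le_mul h6 h4' (norm_nonneg _) (by norm_num)
    linarith
  rw [hq0]
  simp

private theorem Zr_open {z : Pr × ℂ} (h : Zr z) : ∀ᶠ y in 𝓝 z, Zr y := by
  have cs : Continuous (fun y : Pr × ℂ => y.1.2.2) :=
    continuous_snd.comp (continuous_snd.comp continuous_fst)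
  by_cases h1 : ‖z.1.2.2‖ < 1 / 2
  · have : ∀ᶠ y in 𝓝 z, ‖y.1.2.2‖ < 1 / 2 :=
      (continuous_norm.comp cs).continuousAt.eventually (gt_mem_nhds h1)
    filter_upwards [this] with y hy
    exact Or.inr (Or.inl hy)
  by_cases h2 : 3 < ‖z.1.2.2‖
  · have : ∀ᶠ y in 𝓝 z, 3 < ‖y.1.2.2‖ :=
      (continuous_norm.comp cs).continuousAt.eventually (lt_mem_nhds h2)
    filter_upwards [this] with y hy
    exact Or.inr (Or.inr hy)
  have h3 : 1 / 2500 < ‖z.2 - (z.1.2.2)⁻¹‖ := by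
    rcases h with h | h | h
    · exact h
    · exact absurd h h1
    · exact absurd h h2
  have h1' := not_lt.1 h1
  have hs0 : z.1.2.2 ≠ 0 := by
    intro h
    rw [h, norm_zero] at h1'
    linarith
  have hc : ContinuousAt (fun y : Pr × ℂ => ‖y.2 - (y.1.2.2)⁻¹‖) z :=
    (continuous_snd.continuousAt.sub (cs.continuousAt.inv₀ hs0)).norm
  have := hc.eventually (lt_mem_nhds h3)
  filter_upwards [this] with y hy
  exact Or.inl hy

/-- smooth functions which vanish where they should -/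
private structure Gd (g : Pr × ℂ → ℂ) : Prop where
  sm : ∀ n : ℕ, ContDiffOn ℝ n g (Oo ×ˢ univ)
  ze : ∀ z : Pr × ℂ, z.1 ∈ Oo → Zr z → g =ᶠ[𝓝 z] fun _ => 0

private theorem Gd_gF (r : Bool) (q Λ Ψ : ℂ → ℂ)
    (hΛ : ∀ n : ℕ, ContDiffOn ℝ n Λ (Metric.ball 0 (1 / 10))) (hq : ∀ n : ℕ, ContDiff ℝ n q)
    (hq0 : ∀ x, 1 / 10000 < ‖x‖ → q x = 0) (hΨ : ∀ n : ℕ, ContDiff ℝ n Ψ) :
    Gd (gF r q Λ Ψ) := by
  refine ⟨gF_smooth r q Λ Ψ hΛ hq hΨ, fun z hz h => ?_⟩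
  have h1 : ∀ᶠ y in 𝓝 z, y.1 ∈ Oo := continuous_fst.continuousAt.eventually (Oo_open.mem_nhds hz)
  filter_upwards [h1, Zr_open h] with y hy1 hy2
  exact gF_zero r q Λ Ψ hq0 hy1 hy2

/-- the derivative in a direction -/
private noncomputable def Dv (v : Pr × ℂ) (g : Pr × ℂ → ℂ) (z : Pr × ℂ) : ℂ := fderiv ℝ g z v

private theorem U_open : IsOpen (Oo ×ˢ (univ : Set ℂ)) := Oo_open.prod isOpen_univ

private theorem Gd.dv {g : Pr × ℂ → ℂ} (h : Gd g) (v : Pr × ℂ) : Gd (Dv v g) := by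
  refine ⟨fun n => ?_, fun z hz hZ => ?_⟩
  · have h1 : ContDiffOn ℝ n (fderiv ℝ g) (Oo ×ˢ univ) :=
      (h.sm (n + 1)).fderiv_of_isOpen U_open (by norm_cast)
    exact h1.clm_apply contDiffOn_const
  · have h1 := (h.ze z hz hZ).fderiv (𝕜 := ℝ)
    filter_upwards [h1] with y hy
    unfold Dv
    rw [hy]
    simp

private theorem Gd.smul {g : Pr × ℂ → ℂ} (h : Gd g) (c : ℂ) : Gd (fun z => c * g z) := by
  refine ⟨fun n => contDiffOn_const.mul (h.sm n), fun z hz hZ => ?_⟩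
  filter_upwards [h.ze z hz hZ] with y hy
  rw [hy, mul_zero]

private theorem Gd.diff {g : Pr × ℂ → ℂ} (h : Gd g) {z : Pr × ℂ} (hz : z.1 ∈ Oo) :
    HasFDerivAt g (fderiv ℝ g z) z := by
  have h1 : DifferentiableOn ℝ g (Oo ×ˢ univ) := (h.sm 1).differentiableOn (by norm_num)
  exact (h1.differentiableAt (U_open.mem_nhds ⟨hz, mem_univ _⟩)).hasFDerivAt

private theorem Gd.cont {g : Pr × ℂ → ℂ} (h : Gd g) {b a : ℝ} (ha : |a| < 1 / 5000) :
    Continuous (fun z : ℂ × ℂ => g ((b, a, z.1), z.2)) := by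
  rw [continuous_iff_continuousAt]
  intro z
  have h1 : ContinuousAt g ((b, a, z.1), z.2) := (h.diff (z := ((b, a, z.1), z.2)) ha).continuousAt
  have h2 : ContinuousAt (fun z : ℂ × ℂ => (((b, a, z.1), z.2) : Pr × ℂ)) z := by
    have : Continuous (fun z : ℂ × ℂ => (((b, a, z.1), z.2) : Pr × ℂ)) := by fun_prop
    exact this.continuousAt
  exact ContinuousAt.comp (g := g) h1 h2

/-! ### The bounds -/

private def K0 : Set Pr := Icc (0 : ℝ) (1 / 10000) ×ˢ (Icc (0 : ℝ) (1 / 10000) ×ˢ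
  (Metric.closedBall (0 : ℂ) 3 ∩ {s | 1 / 2 ≤ ‖s‖}))

private theorem K0_compact : IsCompact K0 :=
  isCompact_Icc.prod (isCompact_Icc.prod ((isCompact_closedBall _ _).inter_right
    (isClosed_le continuous_const continuous_norm)))

private theorem K0_sub : K0 ⊆ Oo := by
  rintro ⟨b, a, s⟩ ⟨-, h, -⟩
  simp only [mem_Icc] at h
  show |a| < 1 / 5000
  rw [abs_of_nonneg h.1]
  linarith

private theorem am (hGN : M_GN) {g : Pr × ℂ → ℂ} (h : Gd g) (N : ℕ) : ∃ A : ℝ, 0 ≤ A ∧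
    ∀ (C : ℝ) (r : Bool) (b a : ℝ) (s : ℂ), A ≤ C → 0 ≤ b → b ≤ 1 / 10000 → 0 ≤ a →
      a ≤ 1 / 10000 → Rl r s → Am N C r (fun t => g ((b, a, s), t)) := by
  obtain ⟨A, hA, hD⟩ := hGN Oo K0 g (fun e => (e.2.2)⁻¹) (1 / 2500) 2 Oo_open K0_compact K0_sub
    h.sm (fun e he z hz => (h.ze (e, z) he (Or.inl hz)).self_of_nhds) (by
      rintro ⟨b, a, s⟩ ⟨-, -, -, h2⟩
      simp only [Set.mem_ofPred_eq] at h2
      rw [norm_inv, inv_le_comm₀ (by linarith) (by norm_num)]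
      linarith) N
  refine ⟨A, hA, fun C r b a s hAC hb0 hb1 ha0 ha1 hs => ?_⟩
  have hC : 0 ≤ C := hA.trans hAC
  have haO : ∀ s : ℂ, ((b, a, s) : Pr) ∈ Oo := fun s => by
    show |a| < 1 / 5000
    rw [abs_of_nonneg ha0]
    linarith
  have hind : ∀ (w z : ℂ) (G : ℝ), 0 ≤ G → 0 ≤ ind w (1 / 2500) G z := fun w z G hG => by
    unfold ind
    split_ifs
    · exact hG
    · exact le_rfl
  by_cases hz : ‖s‖ < 1 / 2 ∨ 3 < ‖s‖
  · have e : (fun t => g ((b, a, s), t)) = fun _ => 0 := by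
      funext t
      exact (h.ze ((b, a, s), t) (haO s) (Or.inr hz)).self_of_nhds
    rw [e]
    exact ⟨1, fun _ => by simp, by rw [norm_one]; norm_num, by rw [norm_one]; norm_num,
      DB.zero N _ _ fun z _ => hind _ _ _ hC⟩
  · rw [not_or, not_lt, not_lt] at hz
    have hs0 : 0 < ‖s‖ := by linarith
    refine ⟨s⁻¹, fun hr => ?_, ?_, ?_, ?_⟩
    · rw [Complex.inv_im, hs hr]
      simp
    · rw [norm_inv, le_inv_comm₀ (by norm_num) hs0]
      linarith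
    · rw [norm_inv, inv_le_comm₀ hs0 (by norm_num)]
      linarith
    · have h1 := hD (b, a, s) ⟨⟨hb0, hb1⟩, ⟨ha0, ha1⟩, by simpa using hz.2, hz.1⟩
      refine DB.mono h1 le_rfl fun z _ => ?_
      unfold ind
      split_ifs
      · exact hAC
      · exact le_rfl

private theorem curve (b a : ℝ) (t : ℂ) {γ : ℝ → ℂ} {v : ℂ} {x : ℝ} (h : HasDerivAt γ v x) :
    HasDerivAt (fun x : ℝ => (((b, a, γ x), t) : Pr × ℂ)) ((0, 0, v), 0) x :=
  ((hasDerivAt_const x b).prodMk ((hasDerivAt_const x a).prodMk h)).prodMk (hasDerivAt_const x t)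

private theorem Gd.deriv {g : Pr × ℂ → ℂ} (h : Gd g) {b a : ℝ} (ha : |a| < 1 / 5000) (t : ℂ)
    {γ : ℝ → ℂ} {v : ℂ} {x : ℝ} (hγ : HasDerivAt γ v x) :
    HasDerivAt (fun x : ℝ => g ((b, a, γ x), t)) (Dv ((0, 0, v), 0) g ((b, a, γ x), t)) x :=
  (h.diff (z := ((b, a, γ x), t)) ha).comp_hasDerivAt x (curve b a t hγ)

private theorem Gd.out {g : Pr × ℂ → ℂ} (h : Gd g) {b a : ℝ} (ha : |a| < 1 / 5000) (s t : ℂ)
    (hs : 4 ≤ |s.re| ∨ 4 ≤ |s.im|) : g ((b, a, s), t) = 0 := by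
  have h3 : 3 < ‖s‖ := by
    rcases hs with h | h
    · linarith [Complex.abs_re_le_norm s]
    · linarith [Complex.abs_im_le_norm s]
  exact (h.ze ((b, a, s), t) ha (Or.inr (Or.inr h3))).self_of_nhds

private theorem val (hLO : M_LO) (r : Bool) (q Ψ Λ : ℂ → ℂ) (hq : ∀ x, 1 / 10000 < ‖x‖ → q x = 0)
    (hΛ : ∀ (α : ℝ) (t : ℂ), t ≠ 0 → |α| < ‖t‖ / 10 → lo α t = 2 * α / t * Λ (α / t))
    (α G : ℝ) (h0 : 0 < α) (h1 : α ≤ 1 / 10000) (a t : ℂ) (ha1 : 1 ≤ ‖a‖) (ha2 : ‖a‖ < 2) :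
    gF r q Λ Ψ ((G * α, α, a), t) = ((‖a‖ ^ dg r : ℝ) : ℂ) *
      (q (a * t + α * a - 1) * (starRingEnd ℂ) (q (a * t - α * a - 1)) * Ψ (G * lo α t)) := by
  have _ := hLO
  unfold gF hF Pp
  simp only
  rw [psi_one ha1 ha2.le, one_mul]
  by_cases hq0 : q (a * t + α * a - 1) = 0
  · rw [hq0]
    simp
  · have h2 : ‖a * t + α * a - 1‖ ≤ 1 / 10000 := by
      by_contra h
      exact hq0 (hq _ (not_le.1 h))
    have h3 : 1 ≤ ‖a * t + α * a - 1‖ + ‖a‖ * ‖t‖ + α * ‖a‖ := by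
      have e : (1 : ℂ) = -(a * t + α * a - 1) + a * t + α * a := by ring
      calc (1 : ℝ) = ‖(1 : ℂ)‖ := by simp
        _ = ‖-(a * t + α * a - 1) + a * t + α * a‖ := by rw [← e]
        _ ≤ ‖-(a * t + α * a - 1) + a * t‖ + ‖(α : ℂ) * a‖ := norm_add_le _ _
        _ ≤ ‖-(a * t + α * a - 1)‖ + ‖a * t‖ + ‖(α : ℂ) * a‖ := by
          gcongr
          exact norm_add_le _ _
        _ = _ := by
          rw [norm_neg, norm_mul, norm_mul, Complex.norm_real, Real.norm_eq_abs, abs_of_pos h0]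
    have h4 : 1 / 4 ≤ ‖t‖ := by
      have h5 : ‖a‖ * ‖t‖ ≤ 2 * ‖t‖ := mul_le_mul_of_nonneg_right ha2.le (norm_nonneg t)
      have h6 : α * ‖a‖ ≤ 1 / 10000 * 2 := mul_le_mul h1 ha2.le (norm_nonneg a) (by norm_num)
      linarith
    have ht0 : t ≠ 0 := by
      intro h
      rw [h, norm_zero] at h4
      linarith
    rw [chi_one h4, hΛ α t ht0 (by rw [abs_of_pos h0]; linarith)]
    have e : ((G * α : ℝ) : ℂ) * (2 / t) * Λ (α / t) = G * (2 * α / t * Λ (α / t)) := by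
      push_cast
      ring
    rw [e, ofReal_one]
    ring

theorem pf_LA (hLO : M_LO) (hGN : M_GN) : M_LA := by
  intro q Ψ hq hΨ N
  obtain ⟨Λ, hΛs, hΛ⟩ := hLO.2.2
  have hG : ∀ r, Gd (gF r (q r) Λ (Ψ r)) := fun r =>
    Gd_gF r (q r) Λ (Ψ r) hΛs (hq.1 r) (hq.2 r) (hΨ.1 r)
  obtain ⟨A₁, hA₁, h₁⟩ := am hGN (((hG true).dv ((0, 0, 1), 0)).smul (1 / 8)) N
  obtain ⟨A₂, hA₂, h₂⟩ := am hGN (((hG false).dv ((0, 0, 1), 0)).dv ((0, 0, I), 0)) N
  refine ⟨A₁ + A₂ + 1, by linarith, fun r α G hα0 hα1 hG1 hGα => ?_⟩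
  have hGα0 : 0 ≤ G * α := mul_nonneg (by linarith) hα0.le
  have haO : |α| < 1 / 5000 := by
    rw [abs_of_pos hα0]
    linarith
  cases r with
  | true =>
    have g0 := hG true
    have g1 := g0.dv ((0, 0, 1), 0)
    refine ⟨fun s t => gF true (q true) Λ (Ψ true) ((G * α, α, s), t), fun _ _ => 0,
      fun s t => 1 / 8 * Dv ((0, 0, 1), 0) (gF true (q true) Λ (Ψ true))
        ((G * α, α, ((s.re : ℝ) : ℂ)), t), ⟨?_, ?_, ?_, ?_, ?_, ?_, ?_⟩, fun s => ?_⟩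
    · exact g0.cont haO
    · exact continuous_const
    · have h1 := (g1.smul (1 / 8)).cont (b := G * α) haO
      exact h1.comp (((Complex.continuous_ofReal.comp Complex.continuous_re).comp
        continuous_fst).prodMk continuous_snd)
    · intro a t _ ha1 ha2
      exact val hLO true (q true) (Ψ true) Λ (hq.2 true) hΛ α G hα0 hα1 a t ha1 ha2
    · intro s t hs
      exact ⟨g0.out haO s t hs, rfl⟩
    · intro _ t
      refine ⟨fun x => ?_, fun s => by simp⟩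
      have h1 := g0.deriv (b := G * α) haO t (γ := fun x : ℝ => (x : ℂ)) (x := x)
        (Complex.ofRealCLM.hasDerivAt)
      refine h1.congr_deriv ?_
      simp only [ofReal_re, Complex.ofRealCLM_apply, ofReal_one]
      ring
    · intro h
      exact absurd h (by simp)
    · exact h₁ _ true (G * α) α ((s.re : ℝ) : ℂ) (by linarith) hGα0 hGα hα0.le hα1
        (fun _ => ofReal_im _)
  | false =>
    have g0 := hG false
    have g1 := g0.dv ((0, 0, 1), 0)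
    have g2 := g1.dv ((0, 0, I), 0)
    refine ⟨fun s t => gF false (q false) Λ (Ψ false) ((G * α, α, s), t),
      fun s t => Dv ((0, 0, 1), 0) (gF false (q false) Λ (Ψ false)) ((G * α, α, s), t),
      fun s t => Dv ((0, 0, I), 0) (Dv ((0, 0, 1), 0) (gF false (q false) Λ (Ψ false)))
        ((G * α, α, s), t), ⟨?_, ?_, ?_, ?_, ?_, ?_, ?_⟩, fun s => ?_⟩
    · exact g0.cont haO
    · exact g1.cont haO
    · exact g2.cont haO
    · intro a t _ ha1 ha2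
      exact val hLO false (q false) (Ψ false) Λ (hq.2 false) hΛ α G hα0 hα1 a t ha1 ha2
    · intro s t hs
      exact ⟨g0.out haO s t hs, g1.out haO s t hs⟩
    · intro h
      exact absurd h (by simp)
    · intro _ t x y
      have c1 : HasDerivAt (fun x : ℝ => (x : ℂ) + y * I) 1 x := by
        have := (Complex.ofRealCLM.hasDerivAt (x := x)).add_const ((y : ℂ) * I)
        simpa using this
      have c2 : HasDerivAt (fun y : ℝ => (x : ℂ) + y * I) I y := by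
        have := ((Complex.ofRealCLM.hasDerivAt (x := y)).mul_const I).const_add (x : ℂ)
        simpa using this
      exact ⟨g0.deriv haO t c1, g1.deriv haO t c2⟩
    · exact h₂ _ false (G * α) α s (by linarith) hGα0 hGα hα0.le hα1
        (fun h => absurd h (by simp))

end Pool.Agent.H42.TMB.LA
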